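import Pool.Agent.helper7.DF.Spec

set_option autoImplicit false

open Finset

namespace Pool.Agent.DFO

open Pool.Agent.LDH (ee)

theorem PRS_norm (x : ℝ) : ‖ee x‖ = 1 := by
  unfold Pool.Agent.LDH.ee
  rw [Complex.norm_exp_ofReal_mul_I]

theorem PRS_neg (x : ℝ) : ee (-x) = (starRingEnd ℂ) (ee x) := by
  unfold Pool.Agent.LDH.ee
  rw [← Complex.exp_conj]
  congr 1
  rw [map_mul, Complex.conj_ofReal, Complex.conj_I]
  push_cast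
  ring

theorem PRS_sum_neg (f : ℕ → ℝ) (s : Finset ℕ) : ‖∑ m ∈ s, ee (-(f m))‖ = ‖∑ m ∈ s, ee (f m)‖ := by
  have h : ∑ m ∈ s, ee (-(f m)) = (starRingEnd ℂ) (∑ m ∈ s, ee (f m)) := by
    rw [map_sum]
    exact Finset.sum_congr rfl fun m _ => PRS_neg (f m)
  rw [h, Complex.norm_conj]

theorem PRS_triv (f : ℕ → ℝ) (M a b : ℕ) (h1 : M ≤ a) (h2 : b ≤ 2 * M) :
    ‖∑ m ∈ Ioc a b, ee (f m)‖ ≤ M := by
  refine (norm_sum_le _ _).trans ?_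
  have h : ∑ m ∈ Ioc a b, ‖ee (f m)‖ = ((b - a : ℕ) : ℝ) := by
    rw [Finset.sum_congr rfl fun m _ => PRS_norm (f m), Finset.sum_const, Nat.card_Ioc, nsmul_eq_mul, mul_one]
  rw [h]
  exact_mod_cast (by omega : b - a ≤ M)

theorem PRS_core (C δ : ℝ) (hC : 1 ≤ C) (hδ : 0 < δ) (A : ℕ)
    (hK : ∀ (N a b : ℕ) (y : ℝ), 1 ≤ N → N ≤ a → a ≤ b → b ≤ 2 * N →
      (N : ℝ) ≤ y → y ≤ (N : ℝ) ^ (4 * A) → ‖∑ l ∈ Ioc a b, ee (y / l)‖ ≤ C * ((N : ℝ) ^ 2 / y + (N : ℝ) ^ (1 - δ)))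
    (k M l₁ l₂ a b : ℕ) (x : ℝ) (hk : 1 ≤ k) (hM : (k : ℝ) ^ (1 / 4 : ℝ) ≤ M) (hMa : M ≤ a) (hab : a ≤ b)
    (hb : b ≤ 2 * M) (h1 : 1 ≤ l₁) (h12 : l₁ < l₂) (hk1 : M * l₁ ≤ k) (hk2 : M * l₂ ≤ k)
    (hx : (k : ℝ) ≤ x) (hxA : x ≤ (k : ℝ) ^ A) :
    ‖∑ m ∈ Ioc a b, ee (x / (m * l₁) - x / (m * l₂))‖ ≤
      C * ((k : ℝ) ^ 2 / (x * |(l₁ : ℝ) - l₂|) + M * (k : ℝ) ^ (-(δ / 4))) := by
  have hkR : (1 : ℝ) ≤ k := by exact_mod_cast hk
  have hx0 : 0 < x := by linarith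
  have hl1 : (1 : ℝ) ≤ l₁ := by exact_mod_cast h1
  have hl12 : (l₁ : ℝ) + 1 ≤ l₂ := by exact_mod_cast h12
  have hM1R : (1 : ℝ) ≤ M := le_trans (Real.one_le_rpow hkR (by norm_num)) hM
  have hM1 : 1 ≤ M := by exact_mod_cast hM1R
  have hM0 : (0 : ℝ) < M := by linarith
  have habs : |(l₁ : ℝ) - l₂| = l₂ - l₁ := by
    rw [abs_sub_comm, abs_of_pos (by linarith)]
  rw [habs]
  obtain ⟨y, hy⟩ : ∃ y : ℝ, y = x * (l₂ - l₁) / (l₁ * l₂) := ⟨_, rfl⟩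
  have hll : 0 < (l₁ : ℝ) * l₂ := by nlinarith
  have hΔ : 0 < (l₂ : ℝ) - l₁ := by linarith
  have hy0 : 0 < y := by rw [hy]; positivity
  have hyx : y ≤ x := by
    rw [hy, div_le_iff₀ hll]
    refine mul_le_mul_of_nonneg_left ?_ hx0.le
    nlinarith
  have hsum : ∑ m ∈ Ioc a b, ee (x / (m * l₁) - x / (m * l₂)) = ∑ m ∈ Ioc a b, ee (y / m) := by
    refine Finset.sum_congr rfl fun m hm => ?_
    rw [Finset.mem_Ioc] at hm
    have hm0 : (m : ℝ) ≠ 0 := by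
      have : 0 < m := by omega
      exact_mod_cast this.ne'
    have hl1' : (l₁ : ℝ) ≠ 0 := by linarith
    have hl2' : (l₂ : ℝ) ≠ 0 := by linarith
    congr 1
    rw [hy]
    field_simp
  rw [hsum]
  have hk1R : (M : ℝ) * l₁ ≤ k := by exact_mod_cast hk1
  have hk2R : (M : ℝ) * l₂ ≤ k := by exact_mod_cast hk2
  have hfirst : (M : ℝ) ^ 2 / y ≤ (k : ℝ) ^ 2 / (x * ((l₂ : ℝ) - l₁)) := by
    rw [hy, div_div_eq_mul_div]
    refine div_le_div_of_nonneg_right ?_ (by positivity)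
    have : (M : ℝ) ^ 2 * ((l₁ : ℝ) * l₂) = (M * l₁) * (M * l₂) := by ring
    rw [this, sq]
    exact mul_le_mul hk1R hk2R (by positivity) (by linarith)
  have hsecond : (M : ℝ) ^ (1 - δ) ≤ M * (k : ℝ) ^ (-(δ / 4)) := by
    rw [Real.rpow_sub hM0, Real.rpow_one, div_eq_mul_inv]
    refine mul_le_mul_of_nonneg_left ?_ hM0.le
    rw [← Real.rpow_neg hM0.le]
    have e : (k : ℝ) ^ (-(δ / 4)) = ((k : ℝ) ^ (1 / 4 : ℝ)) ^ (-δ) := by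
      rw [← Real.rpow_mul (by linarith)]
      congr 1
      ring
    rw [e]
    exact Real.rpow_le_rpow_of_nonpos (Real.rpow_pos_of_pos (by linarith) _) hM (by linarith)
  have hpos2 : 0 ≤ (M : ℝ) * (k : ℝ) ^ (-(δ / 4)) := by positivity
  rcases le_total (M : ℝ) y with hMy | hMy
  · have hkM : (k : ℝ) ≤ (M : ℝ) ^ 4 := by
      have h4 : ((k : ℝ) ^ (1 / 4 : ℝ)) ^ 4 = k := by
        rw [← Real.rpow_natCast, ← Real.rpow_mul (by linarith)]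
        norm_num
      calc (k : ℝ) = ((k : ℝ) ^ (1 / 4 : ℝ)) ^ 4 := h4.symm
        _ ≤ (M : ℝ) ^ 4 := pow_le_pow_left₀ (by positivity) hM 4
    have hyA : y ≤ (M : ℝ) ^ (4 * A) := by
      refine hyx.trans (hxA.trans ?_)
      rw [pow_mul]
      exact pow_le_pow_left₀ (by linarith) hkM A
    refine (hK M a b y hM1 hMa hab hb hMy hyA).trans ?_
    exact mul_le_mul_of_nonneg_left (add_le_add hfirst hsecond) (by linarith)
  · refine (PRS_triv _ M a b hMa hb).trans ?_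
    have h3 : (M : ℝ) ≤ (M : ℝ) ^ 2 / y := by
      rw [le_div_iff₀ hy0, sq]
      exact mul_le_mul_of_nonneg_left hMy hM0.le
    have h4 : 0 ≤ (k : ℝ) ^ 2 / (x * ((l₂ : ℝ) - l₁)) := by positivity
    have h5 := h3.trans hfirst
    nlinarith

theorem PRS (hKSM : KSM_stmt) : PRS_stmt := by
  intro A
  obtain ⟨δ, C, hδ, hδ1, hC, hK⟩ := hKSM (4 * A)
  refine ⟨δ / 4, C, by linarith, by linarith, hC, ?_⟩
  intro k M l₁ l₂ a b x hk hM hMa hab hb h1 h2 hne hk1 hk2 hx hxA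
  rcases lt_or_gt_of_ne hne with h | h
  · exact PRS_core C δ hC hδ A hK k M l₁ l₂ a b x hk hM hMa hab hb h1 h hk1 hk2 hx hxA
  · have h3 := PRS_core C δ hC hδ A hK k M l₂ l₁ a b x hk hM hMa hab hb h2 h hk2 hk1 hx hxA
    rw [abs_sub_comm] at h3
    refine le_trans (le_of_eq ?_) h3
    rw [← PRS_sum_neg]
    congr 1
    refine Finset.sum_congr rfl fun m _ => ?_
    congr 1
    ring

end Pool.Agent.DFO
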